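import Pool.Agent.H7.KR.Stmts

/-!
# Row CDG of the board `kr`
-/

set_option autoImplicit false

open Finset

namespace Pool.KR

open Pool.Agent.H23.KT Pool.Agent.H46.KW Pool.KQ

namespace CDGAux

theorem card_cov {V : Type} [DecidableEq V] {b : ℕ} (T A : Finset V) (B : Fin b → Finset V)
    (hcov : ∀ u, u ∈ T ↔ u ∈ A ∨ ∃ i, u ∈ B i) (hAB : ∀ i, Disjoint (B i) A)
    (hB : ∀ i j, i ≠ j → Disjoint (B i) (B j)) : T.card = A.card + ∑ i, (B i).card := by
  have h : T = A ∪ univ.biUnion B := by
    ext u
    rw [hcov, mem_union, mem_biUnion]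
    simp
  have hd : Disjoint A (univ.biUnion B) := by
    rw [disjoint_biUnion_right]
    intro i _
    exact (hAB i).symm
  rw [h, card_union_of_disjoint hd, card_biUnion (fun i _ j _ hij => hB i j hij)]

theorem nb_add_non {V : Type} (G : SimpleGraph V) (X : Finset V) (u : V) :
    (nb G X u).card + (non G X u).card = X.card := by
  classical
  unfold nb non
  exact card_filter_add_card_filter_not (s := X) (fun y => G.Adj u y)

theorem e1_pos (p : ℕ) : 0 < e1 p := by
  unfold e1
  positivity

theorem e1_le (p : ℕ) : ((p : ℝ) + 4) * e1 p ≤ 1 := by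
  unfold e1
  have hp : (0 : ℝ) ≤ p := Nat.cast_nonneg p
  rw [mul_one_div, div_le_one (by positivity)]
  have h1 : (1 : ℝ) ≤ ((p : ℝ) + 3) ^ 2 := by nlinarith
  nlinarith [mul_nonneg (by positivity : (0 : ℝ) ≤ (p : ℝ) + 3) (sub_nonneg.2 h1)]

end CDGAux

open CDGAux in
theorem cdg : CDGStmt := by
  intro p C
  obtain ⟨n0, hn0⟩ := exists_nat_ge (8 * C / e1 p)
  refine ⟨max ((p + 2) * (p + 4)) n0, ?_⟩
  intro a ha V _ G e W P U hS he0 he1 hW i
  have ha1 : (p + 2) * (p + 4) ≤ a := (le_max_left _ _).trans ha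
  have ha2 : 8 * C / e1 p ≤ a := hn0.trans (by exact_mod_cast (le_max_right _ _).trans ha)
  have hcard : W.card = U.card + ∑ k, (P k).card := card_cov W U P hS.cov hS.disU hS.par.dis
  refine ⟨?_, ?_, ?_⟩
  · intro u hu
    refine le_trans ?_ hW
    have hd1 : Disjoint (nb G W u) (P i) := by
      rw [disjoint_left]
      intro y hy hy'
      exact hS.par.ind i u hu y hy' (mem_nb G |>.1 hy).2
    have hd2 : Disjoint (nb G W u ∪ P i) (non G U u) := by
      rw [disjoint_left]
      intro y hy hy'
      have hy1 : y ∈ U ∧ ¬ G.Adj u y := by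
        classical
        unfold non at hy'
        rwa [mem_filter] at hy'
      rcases mem_union.1 hy with h | h
      · exact hy1.2 (mem_nb G |>.1 h).2
      · exact (disjoint_left.1 (hS.disU i)) h hy1.1
    rw [← card_union_of_disjoint hd1, ← card_union_of_disjoint hd2]
    refine card_le_card ?_
    intro y hy
    rcases mem_union.1 hy with h | h
    · rcases mem_union.1 h with h | h
      · exact (mem_nb G |>.1 h).1
      · exact (hS.cov y).2 (Or.inr ⟨i, h⟩)
    · have hy1 : y ∈ U := by
        classical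
        unfold non at h
        exact (mem_filter.1 h).1
      exact (hS.cov y).2 (Or.inl hy1)
  · intro n hn
    have hlo := hS.lo i
    have hn' : (n : ℝ) + (P i).card ≤ (p + 3) * a + (p + 2) := by exact_mod_cast hn
    have hp : (0 : ℝ) ≤ p := Nat.cast_nonneg p
    have ha0 : (0 : ℝ) ≤ a := Nat.cast_nonneg a
    have hee : ((p : ℝ) + 4) * e ≤ 1 := by
      refine le_trans ?_ (e1_le p)
      exact mul_le_mul_of_nonneg_left he1 (by positivity)
    have ha1' : ((p : ℝ) + 2) * (p + 4) ≤ a := by exact_mod_cast ha1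
    have h3 : (n : ℝ) ≤ (p + 2 + e) * a + (p + 2) := by linarith
    have h4 : ((p : ℝ) + 4) * n ≤ (p + 2) * (p + 5) * a := by
      have h5 : ((p : ℝ) + 4) * n ≤ (p + 4) * ((p + 2 + e) * a + (p + 2)) :=
        mul_le_mul_of_nonneg_left h3 (by positivity)
      have h6 : ((p : ℝ) + 4) * e * a ≤ 1 * a := mul_le_mul_of_nonneg_right hee ha0
      have h7 : (0 : ℝ) ≤ p * a := mul_nonneg hp ha0
      nlinarith
    exact_mod_cast h4
  · intro z hz hzi
    obtain ⟨k, hki, hk⟩ := hS.exc z hz i
    have hnb : (nb G W z).card = (nb G U z).card + ∑ l, (nb G (P l) z).card := by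
      refine card_cov (nb G W z) (nb G U z) (fun l => nb G (P l) z) ?_ ?_ ?_
      · intro y
        simp only [mem_nb, hS.cov y]
        constructor
        · rintro ⟨h | ⟨l, h⟩, h'⟩
          · exact Or.inl ⟨h, h'⟩
          · exact Or.inr ⟨l, h, h'⟩
        · rintro (⟨h, h'⟩ | ⟨l, h, h'⟩)
          · exact ⟨Or.inl h, h'⟩
          · exact ⟨Or.inr ⟨l, h⟩, h'⟩
      · intro l
        rw [disjoint_left]
        intro y hy hy'
        exact (disjoint_left.1 (hS.disU l)) (mem_nb G |>.1 hy).1 (mem_nb G |>.1 hy').1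
      · intro l l' hll
        rw [disjoint_left]
        intro y hy hy'
        exact (disjoint_left.1 (hS.par.dis l l' hll)) (mem_nb G |>.1 hy).1 (mem_nb G |>.1 hy').1
    have hd : ∀ l, ((P l).card : ℝ) = (nb G (P l) z).card + (non G (P l) z).card := by
      intro l
      exact_mod_cast (nb_add_non G (P l) z).symm
    have hsum : ∑ l, ((P l).card : ℝ) = ∑ l, ((nb G (P l) z).card : ℝ) +
        ∑ l, ((non G (P l) z).card : ℝ) := by
      rw [← sum_add_distrib]
      exact sum_congr rfl (fun l _ => hd l)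
    have hpair : ((non G (P i) z).card : ℝ) + (non G (P k) z).card ≤
        ∑ l, ((non G (P l) z).card : ℝ) := by
      rw [← sum_pair (f := fun l => ((non G (P l) z).card : ℝ)) (Ne.symm hki)]
      exact sum_le_sum_of_subset_of_nonneg (subset_univ _) (fun _ _ _ => Nat.cast_nonneg _)
    have hU : ((nb G U z).card : ℝ) ≤ U.card := by
      have := nb_add_non G U z
      exact_mod_cast (by omega : (nb G U z).card ≤ U.card)
    have hC : C ≤ e1 p / 8 * a := by
      rw [div_le_iff₀ (e1_pos p)] at ha2
      linarith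
    have hcard' : (W.card : ℝ) = U.card + ∑ l, ((P l).card : ℝ) := by exact_mod_cast hcard
    have hnb' : ((nb G W z).card : ℝ) = (nb G U z).card + ∑ l, ((nb G (P l) z).card : ℝ) := by
      exact_mod_cast hnb
    have hW' : (W.card : ℝ) ≤ (p + 3) * a + (p + 2) := by exact_mod_cast hW
    have hi := hd i
    have hcU := hS.cU
    have fin : ((nb G W z).card : ℝ) + (P i).card + U.card ≤ (p + 3) * a + (p + 2) := by
      linarith
    exact_mod_cast fin

end Pool.KR
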