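import Pool.Agent.H7.KR.Stmts

/-!
# Row EDG of the board `kr`
-/

set_option autoImplicit false

open Finset

namespace Pool.KR

open Pool.Agent.H23.KT Pool.Agent.H46.KW Pool.KQ

theorem edg (h1 : YSMStmt) (h2 : PTWStmt) (h3 : LCQStmt) : EDGStmt := by
  intro p
  obtain ⟨a0, ha0⟩ := h3 p
  refine ⟨a0, ?_⟩
  intro a ha V _ _ G hG v u hu hn
  set W := co G v u with hW
  have hp : (0 : ℝ) ≤ p := Nat.cast_nonneg p
  have haR : (0 : ℝ) ≤ a := Nat.cast_nonneg a
  have hCB : CB G W (p + 2) := by
    have hcb : CB G univ (p + 3 + 1) := hG.cb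
    have h4 : CB G (nb G univ v) (p + 2 + 1) := hcb.nb (mem_univ v)
    exact h4.nb hu
  have hkc : (kc G W (p + 2) : ℝ) = (clq G W (p + 2)).card := by rw [kc_eq]
  have hES : ES G p a v u W = a * kc G W (p + 2) +
      ∑ S ∈ clq G W (p + 2), yy G p a (insert v (insert u S)) v := by
    unfold ES
    rw [sum_add_distrib, sum_const, nsmul_eq_mul, hkc]
    ring
  have hK : ∀ S ∈ clq G W (p + 2), (insert v (insert u S)).card = p + 4 := by
    intro S hS
    obtain ⟨hSW, hSc, hScl⟩ := (mem_clq G).1 hS
    have huS : u ∉ S := by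
      intro h
      have := (mem_nb G).1 (hSW h)
      exact G.loopless.irrefl u this.2
    have hvu : v ≠ u := by
      rintro rfl
      exact G.loopless.irrefl v ((mem_nb G).1 hu).2
    have hvS : v ∉ S := by
      intro h
      have h5 := (mem_nb G).1 (hSW h)
      exact G.loopless.irrefl v ((mem_nb G).1 h5.1).2
    rw [card_insert_of_notMem, card_insert_of_notMem huS, hSc]
    rw [mem_insert, not_or]
    exact ⟨hvu, hvS⟩
  have hze : ∀ S : Finset V, (0 : ℝ) ≤ ze G p W S := fun S => Nat.cast_nonneg _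
  rw [hES]
  rcases Nat.lt_or_ge ((p + 2) * (a + 1)) W.card with hc | hc
  · -- the case `n > D₁`
    have hmax : max W.card ((p + 2) * (a + 1)) = W.card := max_eq_left hc.le
    rw [hmax]
    set n := W.card with hnn
    set a' := (n - 1) / (p + 2) with ha'
    have hdm := Nat.div_add_mod (n - 1) (p + 2)
    have hmod : (n - 1) % (p + 2) < p + 2 := Nat.mod_lt _ (by omega)
    rw [← ha'] at hdm
    set m := (n - 1) % (p + 2) with hm
    have hn1 : (p + 2) * a' + (m + 1) = n := by omega
    have ha'1 : a + 1 ≤ a' := by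
      rw [ha', Nat.le_div_iff_mul_le (by omega)]
      have : (a + 1) * (p + 2) = (p + 2) * (a + 1) := by ring
      omega
    have hL := ha0 (m + 1) (by omega) a' (by omega) G W hCB (by omega)
    rw [hn1] at hL
    have hcR : ((p : ℝ) + 2) * (a + 1) < n := by exact_mod_cast hc
    have hg : max (((p : ℝ) + 2) * (a + 1) - n) 0 = 0 := max_eq_right (by linarith)
    -- the bound of the share
    have hy : ∀ S ∈ clq G W (p + 2), yy G p a (insert v (insert u S)) v ≤
        ((p : ℝ) + 4) / (p + 5) * min ((m + 1 : ℕ) : ℝ)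
          ((n : ℝ) - n + 5 / 4 / ((p : ℝ) + 4) * ze G p W S) := by
      intro S hS
      obtain ⟨b1, b2⟩ := h2 G p a hG v u hu W (subset_refl _) S hS
      rw [← hnn, hg, sub_zero, zero_add] at b1
      rw [← hW, ← hnn, hg, sub_zero, zero_add] at b2
      have c1 : yy G p a (insert v (insert u S)) v ≤ ze G p W S / ((p : ℝ) + 4) := by
        refine b1.trans ?_
        apply div_le_div_of_nonneg_right _ (by positivity)
        exact max_le (by linarith [hze S]) (hze S)
      have c2 : yy G p a (insert v (insert u S)) v ≤ ((p : ℝ) + 2) / ((p : ℝ) + 4) := by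
        refine b2.trans ?_
        rw [max_eq_left (by positivity)]
      have hρ : (0 : ℝ) ≤ ((p : ℝ) + 4) / (p + 5) := by positivity
      rw [mul_min_of_nonneg _ _ hρ]
      refine le_min ?_ ?_
      · refine c2.trans ?_
        have h6 : (1 : ℝ) ≤ ((m + 1 : ℕ) : ℝ) := by
          exact_mod_cast Nat.succ_le_succ (Nat.zero_le m)
        have h7 : ((p : ℝ) + 2) / ((p : ℝ) + 4) ≤ ((p : ℝ) + 4) / (p + 5) := by
          rw [div_le_div_iff₀ (by positivity) (by positivity)]
          nlinarith
        calc ((p : ℝ) + 2) / ((p : ℝ) + 4) ≤ ((p : ℝ) + 4) / (p + 5) * 1 := by rw [mul_one]; exact h7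
          _ ≤ ((p : ℝ) + 4) / (p + 5) * ((m + 1 : ℕ) : ℝ) := mul_le_mul_of_nonneg_left h6 hρ
      · refine c1.trans ?_
        rw [sub_self, zero_add]
        have e1 : ((p : ℝ) + 4) / (p + 5) * (5 / 4 / ((p : ℝ) + 4) * ze G p W S)
            = 5 / 4 * ze G p W S / (p + 5) := by
          field_simp
        rw [e1, div_le_div_iff₀ (by positivity) (by positivity)]
        nlinarith [hze S, mul_nonneg hp (hze S)]
    have hz : (kc G W (p + 2) : ℝ) ≤ bal (p + 2) n := by
      have := zyk (G := G) (p + 1) W hCB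
      rw [hnn]
      exact_mod_cast this
    have hρa : ((p : ℝ) + 4) / (p + 5) * a' ≤ a := by
      rw [div_mul_eq_mul_div, div_le_iff₀ (by positivity)]
      have h8 : (p + 4) * ((p + 2) * a') ≤ (p + 2) * (p + 5) * a :=
        (Nat.mul_le_mul_left _ (by omega)).trans hn
      have h9 : (p + 2) * ((p + 4) * a') ≤ (p + 2) * (a * (p + 5)) := by
        calc (p + 2) * ((p + 4) * a') = (p + 4) * ((p + 2) * a') := by ring
          _ ≤ (p + 2) * (p + 5) * a := h8
          _ = (p + 2) * (a * (p + 5)) := by ring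
      have h10 : (p + 4) * a' ≤ a * (p + 5) := Nat.le_of_mul_le_mul_left h9 (by omega)
      exact_mod_cast h10
    have hsum : ∑ S ∈ clq G W (p + 2), yy G p a (insert v (insert u S)) v ≤
        ((p : ℝ) + 4) / (p + 5) * (a' * ((bal (p + 2) n : ℝ) - kc G W (p + 2))) := by
      refine (sum_le_sum hy).trans ?_
      rw [← mul_sum]
      exact mul_le_mul_of_nonneg_left hL (by positivity)
    have hfin : ((p : ℝ) + 4) / (p + 5) * (a' * ((bal (p + 2) n : ℝ) - kc G W (p + 2))) ≤
        a * ((bal (p + 2) n : ℝ) - kc G W (p + 2)) := by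
      rw [← mul_assoc]
      exact mul_le_mul_of_nonneg_right hρa (by linarith)
    nlinarith [hsum, hfin]
  · -- the case `n ≤ D₁`
    have hmax : max W.card ((p + 2) * (a + 1)) = (p + 2) * (a + 1) := max_eq_right hc
    rw [hmax]
    set n := W.card with hnn
    have hcR : (n : ℝ) ≤ ((p : ℝ) + 2) * (a + 1) := by exact_mod_cast hc
    have hD : (p + 2) * a + (p + 2) = (p + 2) * (a + 1) := by ring
    have hL := ha0 (p + 2) le_rfl a ha G W hCB (by rw [hD]; exact hc)
    rw [hD] at hL
    have hg : max (((p : ℝ) + 2) * (a + 1) - n) 0 = ((p : ℝ) + 2) * (a + 1) - n :=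
      max_eq_left (by linarith)
    have hy : ∀ S ∈ clq G W (p + 2), yy G p a (insert v (insert u S)) v ≤
        min ((p + 2 : ℕ) : ℝ)
          ((((p + 2) * (a + 1) : ℕ) : ℝ) - n + 5 / 4 / ((p : ℝ) + 4) * ze G p W S) := by
      intro S hS
      obtain ⟨b1, -⟩ := h2 G p a hG v u hu W (subset_refl _) S hS
      rw [← hnn, hg] at b1
      have e1 : ((p : ℝ) + 2) * (a + 1) - n + ze G p W S - (((p : ℝ) + 2) * (a + 1) - n)
          = ze G p W S := by ring
      rw [e1, max_eq_left (hze S)] at b1
      refine le_min ?_ ?_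
      · have := (h1 G p a (insert v (insert u S)) (hK S hS)).2.2 v (mem_insert_self _ _)
        push_cast
        exact this
      · refine b1.trans ?_
        push_cast
        have h11 : (ze G p W S : ℝ) / ((p : ℝ) + 4) ≤ 5 / 4 / ((p : ℝ) + 4) * ze G p W S := by
          rw [div_mul_eq_mul_div]
          apply div_le_div_of_nonneg_right _ (by positivity)
          linarith [hze S]
        linarith
    have hsum := (sum_le_sum hy).trans hL
    nlinarith [hsum]

end Pool.KR
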